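import Pool.Agent.helper45.TF.Defs2

namespace Pool.Agent.helper45.TF

open Set Topology Filter

theorem OPN : OPN_stmt := by
  intro V _ _ S p hp
  obtain ⟨h1, h2⟩ := hp
  have e1 : ∀ᶠ p' in 𝓝 p, ∀ v a b c : V, v ≠ a → v ≠ b → v ≠ c → a ≠ b → a ≠ c → b ≠ c →
      ({v, a, b} : Finset V) ∈ S.faces → ({v, b, c} : Finset V) ∈ S.faces →
      det3 (p' a - p' v) (p' b - p' v) (p' c - p' v) ≠ 0 := by
    rw [eventually_all]; intro v
    rw [eventually_all]; intro a
    rw [eventually_all]; intro b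
    rw [eventually_all]; intro c
    by_cases hh : v ≠ a ∧ v ≠ b ∧ v ≠ c ∧ a ≠ b ∧ a ≠ c ∧ b ≠ c ∧
      ({v, a, b} : Finset V) ∈ S.faces ∧ ({v, b, c} : Finset V) ∈ S.faces
    · obtain ⟨g1, g2, g3, g4, g5, g6, g7, g8⟩ := hh
      have hne := h1 v a b c g1 g2 g3 g4 g5 g6 g7 g8
      have hc : Continuous (fun p' : V → E3 =>
          det3 (p' a - p' v) (p' b - p' v) (p' c - p' v)) := by
        unfold det3
        fun_prop
      have := hc.continuousAt.eventually_ne hne
      filter_upwards [this] with p' hp' _ _ _ _ _ _ _ _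
      exact hp'
    · refine Eventually.of_forall ?_
      intro p' g1 g2 g3 g4 g5 g6 g7 g8
      exact absurd ⟨g1, g2, g3, g4, g5, g6, g7, g8⟩ hh
  have e2 : ∀ᶠ p' in 𝓝 p, ∀ v : V, ∀ s ∈ S.faces, ∀ t ∈ S.faces, s ∩ t = {v} →
      ∃ N : E3, (∀ w ∈ s, w ≠ v → 0 < inner ℝ N (p' w - p' v)) ∧
        ∀ w ∈ t, w ≠ v → inner ℝ N (p' w - p' v) < 0 := by
    rw [eventually_all]; intro v
    rw [Filter.eventually_all_finset]; intro s hs
    rw [Filter.eventually_all_finset]; intro t ht
    by_cases hst : s ∩ t = {v}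
    · obtain ⟨N, hN1, hN2⟩ := h2 v s hs t ht hst
      have f1 : ∀ᶠ p' in 𝓝 p, ∀ w ∈ s, w ≠ v → 0 < (inner ℝ N (p' w - p' v) : ℝ) := by
        rw [Filter.eventually_all_finset]; intro w hw
        by_cases hwv : w = v
        · exact Eventually.of_forall fun p' hh => absurd hwv hh
        · have hc : Continuous (fun p' : V → E3 => (inner ℝ N (p' w - p' v) : ℝ)) := by
            fun_prop
          filter_upwards [hc.continuousAt.eventually (lt_mem_nhds (hN1 w hw hwv))] with p' hp' _
          exact hp'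
      have f2 : ∀ᶠ p' in 𝓝 p, ∀ w ∈ t, w ≠ v → (inner ℝ N (p' w - p' v) : ℝ) < 0 := by
        rw [Filter.eventually_all_finset]; intro w hw
        by_cases hwv : w = v
        · exact Eventually.of_forall fun p' hh => absurd hwv hh
        · have hc : Continuous (fun p' : V → E3 => (inner ℝ N (p' w - p' v) : ℝ)) := by
            fun_prop
          filter_upwards [hc.continuousAt.eventually (gt_mem_nhds (hN2 w hw hwv))] with p' hp' _
          exact hp'
      filter_upwards [f1, f2] with p' g1 g2 _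
      exact ⟨N, g1, g2⟩
    · exact Eventually.of_forall fun p' hh => absurd hh hst
  filter_upwards [e1, e2] with p' g1 g2
  exact ⟨g1, g2⟩

end Pool.Agent.helper45.TF
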