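import Pool.Agent.helper45.TF.Defs2

namespace Pool.Agent.helper45.TF

open Set Topology

/-- the affine map from the standard 2-simplex to the unit interval with vertex values
`a`, `b`, `c` -/
noncomputable def SD_tri (a b c : unitInterval) : C(D2, unitInterval) where
  toFun x := ⟨x.1 0 * a + x.1 1 * b + x.1 2 * c, by
    have h0 := x.2.1 0
    have h1 := x.2.1 1
    have h2 := x.2.1 2
    have hs := x.2.2
    rw [Fin.sum_univ_three] at hs
    have ha0 := a.2.1
    have ha1 := a.2.2
    have hb0 := b.2.1
    have hb1 := b.2.2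
    have hc0 := c.2.1
    have hc1 := c.2.2
    constructor
    · have e1 := mul_nonneg h0 ha0
      have e2 := mul_nonneg h1 hb0
      have e3 := mul_nonneg h2 hc0
      linarith
    · have e1 := mul_le_mul_of_nonneg_left ha1 h0
      have e2 := mul_le_mul_of_nonneg_left hb1 h1
      have e3 := mul_le_mul_of_nonneg_left hc1 h2
      linarith⟩
  continuous_toFun := by
    have hk : ∀ k : Fin 3, Continuous (fun x : D2 => x.1 k) := fun k =>
      (continuous_apply k).comp continuous_subtype_val
    refine Continuous.subtype_mk ?_ _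
    exact (((hk 0).mul continuous_const).add ((hk 1).mul continuous_const)).add
      ((hk 2).mul continuous_const)

theorem SD_tri_01 (a b c : unitInterval) : (SD_tri a b c).comp (edgeMap 0 1) = unitSeg a b := by
  ext t
  simp [SD_tri, edgeMap, unitSeg]

theorem SD_tri_02 (a b c : unitInterval) : (SD_tri a b c).comp (edgeMap 0 2) = unitSeg a c := by
  ext t
  simp [SD_tri, edgeMap, unitSeg]

theorem SD_tri_12 (a b c : unitInterval) : (SD_tri a b c).comp (edgeMap 1 2) = unitSeg b c := by
  ext t
  simp [SD_tri, edgeMap, unitSeg]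

theorem SD_bd {V : Type} (γ : Sing1 V) (a b c : unitInterval) :
    bd2 (Finsupp.single (γ.comp (SD_tri a b c)) (1 : ZMod 2))
      = Finsupp.single (γ.comp (unitSeg a b)) 1 + Finsupp.single (γ.comp (unitSeg a c)) 1
        + Finsupp.single (γ.comp (unitSeg b c)) 1 := by
  unfold bd2
  rw [Finsupp.lsum_single]
  simp only [LinearMap.add_apply, Finsupp.lsingle_apply, ContinuousMap.comp_assoc, SD_tri_01,
    SD_tri_02, SD_tri_12]

theorem SD_triBounds {V : Type} (X : Set (V → ℝ)) (γ : Sing1 V) (hγ : ∀ t, γ t ∈ X)
    (a b c : unitInterval) :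
    BoundsIn X (Finsupp.single (γ.comp (unitSeg a b)) 1 + Finsupp.single (γ.comp (unitSeg a c)) 1
        + Finsupp.single (γ.comp (unitSeg b c)) 1) := by
  refine ⟨Finsupp.single (γ.comp (SD_tri a b c)) (1 : ZMod 2), ?_, SD_bd γ a b c⟩
  intro τ hτ x
  have h := Finsupp.support_single_subset hτ
  rw [Finset.mem_singleton] at h
  subst h
  exact hγ _

theorem SD_addself {V : Type} (x : Sing1 V →₀ ZMod 2) : x + x = 0 := by
  ext γ
  simp only [Finsupp.add_apply, Finsupp.zero_apply]
  exact CharTwo.add_self_eq_zero _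

theorem SD (hB : BIN_stmt) : SD_stmt := by
  intro V _ _ X γ hγ n s h0 h1
  obtain ⟨_, hadd, _, _, _⟩ := hB V X
  have key : ∀ k : ℕ, BoundsIn X (Finsupp.single (γ.comp (unitSeg (s 0) (s k))) 1
      + ∑ i ∈ Finset.range k, Finsupp.single (γ.comp (unitSeg (s i) (s (i + 1)))) 1) := by
    intro k
    induction k with
    | zero =>
      have h := SD_triBounds X γ hγ (s 0) (s 0) (s 0)
      rw [SD_addself, zero_add] at h
      simpa using h
    | succ k ih =>
      have h := hadd _ _ ih (SD_triBounds X γ hγ (s 0) (s k) (s (k + 1)))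
      have e : (Finsupp.single (γ.comp (unitSeg (s 0) (s k))) (1 : ZMod 2)
          + ∑ i ∈ Finset.range k, Finsupp.single (γ.comp (unitSeg (s i) (s (i + 1)))) (1 : ZMod 2))
          + (Finsupp.single (γ.comp (unitSeg (s 0) (s k))) (1 : ZMod 2)
            + Finsupp.single (γ.comp (unitSeg (s 0) (s (k + 1)))) (1 : ZMod 2)
            + Finsupp.single (γ.comp (unitSeg (s k) (s (k + 1)))) (1 : ZMod 2))
          = Finsupp.single (γ.comp (unitSeg (s 0) (s (k + 1)))) (1 : ZMod 2)
            + ∑ i ∈ Finset.range (k + 1),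
                Finsupp.single (γ.comp (unitSeg (s i) (s (i + 1)))) (1 : ZMod 2) := by
        rw [Finset.sum_range_succ]
        have hz := SD_addself (Finsupp.single (γ.comp (unitSeg (s 0) (s k))) (1 : ZMod 2))
        generalize Finsupp.single (γ.comp (unitSeg (s 0) (s k))) (1 : ZMod 2) = A at hz ⊢
        generalize (∑ i ∈ Finset.range k,
          Finsupp.single (γ.comp (unitSeg (s i) (s (i + 1)))) (1 : ZMod 2)) = B
        generalize Finsupp.single (γ.comp (unitSeg (s 0) (s (k + 1)))) (1 : ZMod 2) = C
        generalize Finsupp.single (γ.comp (unitSeg (s k) (s (k + 1)))) (1 : ZMod 2) = D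
        calc A + B + (A + C + D) = (A + A) + (C + (B + D)) := by abel
          _ = C + (B + D) := by rw [hz, zero_add]
      rw [e] at h
      exact h
  have h := key n
  have hid : γ.comp (unitSeg (s 0) (s n)) = γ := by
    rw [h0, h1]
    have hu : ∀ t : unitInterval, unitSeg 0 1 t = t := by
      intro t
      apply Subtype.ext
      simp [unitSeg]
    ext t v
    simp only [ContinuousMap.comp_apply, hu]
  rw [hid] at h
  exact h

end Pool.Agent.helper45.TF
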